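import Pool.Agent.W_MP_e258d6_nt.Four
import Pool.Agent.W_MP_e258d6_nt.Converge

/-!
MP_e258d6_nt, Q1: the three infinite families of congruences hold.

`c n` is the coefficient of `q^n` in
`∑_{m ≥ 0} (-q^{2m+2};q²)_∞ q^{2m+1} / (q^{2m+1};q²)_∞²`
(`Pool.Agent.W_MP_e258d6_nt.c`).

* The first part of the theorem says that the infinite products and the infinite sum in this
  definition converge in `ℤ⟦X⟧` (so that `c` is what it should be).
* The second part is the answer to Q1.
* The third part says that the three fractions in the question are integers, so that the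
  truncating division of natural numbers used in the second part is exact.
-/

set_option autoImplicit false

namespace Pool.Agent.Results.MP_e258d6_nt.Congruences

open Pool.Agent.W_MP_e258d6_nt

theorem result :
    WellDefined ∧
    (∀ k n : ℕ, 1 ≤ k →
      (4 : ℤ) ∣ c (2 ^ (2 * k + 3) * n + (11 * 4 ^ k + 1) / 3) ∧
      (8 : ℤ) ∣ c (2 ^ (2 * k + 3) * n + (17 * 4 ^ k + 1) / 3) ∧
      (4 : ℤ) ∣ c (2 ^ (2 * k + 4) * n + (38 * 4 ^ k + 1) / 3)) ∧
    (∀ k : ℕ, 3 ∣ 11 * 4 ^ k + 1 ∧ 3 ∣ 17 * 4 ^ k + 1 ∧ 3 ∣ 38 * 4 ^ k + 1) := by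
  refine ⟨wellDefined,
    fun k n hk => ⟨family_one k hk n, family_two k hk n, family_three k hk n⟩, fun k => ?_⟩
  have := four_pow_mod k
  omega

end Pool.Agent.Results.MP_e258d6_nt.Congruences
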